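import Mathlib

set_option autoImplicit false

namespace Pool.Agent.P.MP_fd346d_co

open Function

lemma exists_bound {A : Type} [Finite A] (f : A → ℕ) : ∃ B, ∀ a, f a < B := by
  obtain ⟨B, hB⟩ := (Set.finite_range f).bddAbove
  exact ⟨B + 1, fun a => Nat.lt_succ_of_le (hB ⟨a, rfl⟩)⟩

lemma lex_lt {i i' z z' B : ℕ} (h : i < i') (hz : z < B) : i * B + z < i' * B + z' := by
  have : (i + 1) * B ≤ i' * B := Nat.mul_le_mul_right _ h
  rw [add_mul, one_mul] at this
  omega

lemma lex_inj {A T : Type} {x : A → ℕ} {y : T → ℕ} {B : ℕ} (hx : Injective x) (hy : Injective y)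
    (hB : ∀ t, y t < B) : Injective fun p : A × T => x p.1 * B + y p.2 := by
  rintro ⟨a, t⟩ ⟨a', t'⟩ h
  simp only at h
  have h1 : x a = x a' := by
    rcases lt_trichotomy (x a) (x a') with h1 | h1 | h1
    · exact absurd h (lex_lt h1 (hB t)).ne
    · exact h1
    · exact absurd h.symm (lex_lt h1 (hB t')).ne
  rw [h1] at h
  rw [hx h1, hy (Nat.add_left_cancel h)]

lemma refine_inj {A : Type} [Finite A] (f : A → ℕ) :
    ∃ g : A → ℕ, Injective g ∧ ∀ a b, f a < f b → g a < g b := by
  obtain ⟨n, ⟨e⟩⟩ := Finite.exists_equiv_fin A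
  refine ⟨fun a => f a * n + e a, ?_, fun a b h => lex_lt h (e a).2⟩
  intro a b h
  have := lex_inj (x := id) (y := fun a => (e a : ℕ)) (B := n) injective_id
    (fun a b h => e.injective (Fin.ext h)) (fun t => (e t).2) (a₁ := (f a, a)) (a₂ := (f b, b)) h
  exact (Prod.ext_iff.1 this).2

/-- points with two linear orders are indivisible -/
lemma ramsey (A C : Type) [Finite A] (x x' : A → ℕ) (hx : Injective x) (hx' : Injective x')
    (k : ℕ) : ∃ (T : Type) (_ : Finite T) (y y' : T → ℕ), Injective y ∧ Injective y' ∧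
      (Nonempty A → Nonempty T) ∧
      ∀ (S : Finset C) (c : T → C), Nonempty A → S.card ≤ k → (∀ t, c t ∈ S) →
        ∃ (e : A → T) (γ : C), (∀ a, c (e a) = γ) ∧ (∀ a b, x a < x b → y (e a) < y (e b)) ∧
          (∀ a b, x' a < x' b → y' (e a) < y' (e b)) := by
  classical
  induction k with
  | zero =>
    refine ⟨Unit, inferInstance, fun _ => 0, fun _ => 0, fun _ _ _ => rfl, fun _ _ _ => rfl,
      fun _ => inferInstance, ?_⟩
    intro S c _ hS hc
    have := Finset.card_pos.2 ⟨_, hc ()⟩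
    omega
  | succ k ih =>
    obtain ⟨T, _, y, y', hy, hy', hne, h⟩ := ih
    obtain ⟨B, hB⟩ := exists_bound y
    obtain ⟨B', hB'⟩ := exists_bound y'
    refine ⟨A × T, inferInstance, fun p => x p.1 * B + y p.2, fun p => x' p.1 * B' + y' p.2,
      lex_inj hx hy hB, lex_inj hx' hy' hB', fun hA => ⟨(hA.some, (hne hA).some)⟩, ?_⟩
    intro S c hA hS hc
    let γ := c (hA.some, (hne hA).some)
    by_cases hall : ∀ a, ∃ t, c (a, t) = γ
    · choose f hf using hall
      exact ⟨fun a => (a, f a), γ, hf, fun a b hab => lex_lt hab (hB _),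
        fun a b hab => lex_lt hab (hB' _)⟩
    · push Not at hall
      obtain ⟨a, ha⟩ := hall
      obtain ⟨e, δ, h1, h2, h3⟩ := h (S.erase γ) (fun t => c (a, t)) hA
        (by rw [Finset.card_erase_of_mem (hc _)]; omega)
        (fun t => Finset.mem_erase.2 ⟨ha t, hc _⟩)
      exact ⟨fun b => (a, e b), δ, h1, fun b b' hb => Nat.add_lt_add_left (h2 b b' hb) _,
        fun b b' hb => Nat.add_lt_add_left (h3 b b' hb) _⟩

/-- the pair `(a, b)` is covered by the order `X`, its reverse, or the order `Z` -/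
def Cov {W : Type} (adj : W → W → Prop) (X Z : W → ℕ) (a b : W) : Prop :=
  (X b < X a ∧ ∀ c, adj b c → X c < X a) ∨ (X a < X b ∧ ∀ c, adj b c → X a < X c) ∨
    (∀ c, adj b c → Z c < Z a)

structure Stage {V : Type} (H : V → V → Prop) (ρ ρ' : V → ℕ) (k : ℕ) (U D D' : Set V) where
  W : Type
  fin : Finite W
  adj : W → W → Prop
  π : W → V
  X : W → ℕ
  X' : W → ℕ
  Z : W → ℕ
  Z' : W → ℕ
  symm : ∀ a b, adj a b → adj b a
  hom : ∀ a b, adj a b → H (π a) (π b)
  mem : ∀ a, π a ∈ U
  ram : ∀ c : W → Fin k, (∀ a b, adj a b → c a ≠ c b) → ∃ φ : V → Fin k,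
    (∀ u ∈ U, ∀ v ∈ U, H u v → φ u ≠ φ v) ∧ ∀ u ∈ U, ∃ a, π a = u ∧ c a = φ u
  cov : ∀ a b, a ≠ b → ¬ adj a b → Cov adj X Z a b ∨ Cov adj X' Z' b a
  ori : ∀ a c, adj a c → ρ (π c) < ρ (π a) → X c < X a
  ori' : ∀ a c, adj a c → ρ' (π c) < ρ' (π a) → X' c < X' a
  dia : ∀ a, π a ∈ D → ∀ c, adj a c → Z c < Z a
  dia' : ∀ a, π a ∈ D' → ∀ c, adj a c → Z' c < Z' a

section Step
variable {W T E : Type} (adj : W → W → Prop) (R : W → Prop) (em : E → W → T)

def nadj : T ⊕ E × W → T ⊕ E × W → Prop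
  | .inl _, .inl _ => False
  | .inl t, .inr p => R p.2 ∧ em p.1 p.2 = t
  | .inr p, .inl t => R p.2 ∧ em p.1 p.2 = t
  | .inr p, .inr q => p.1 = q.1 ∧ adj p.2 q.2

open Classical in
noncomputable def nX (y : T → ℕ) (up : W → Prop) : T ⊕ E × W → ℕ
  | .inl t => 4 * y t + 1
  | .inr p => 4 * y (em p.1 p.2) + if R p.2 then (if up p.2 then 2 else 0) else 3

def nZ (idx : E → ℕ) (B : ℕ) (Z : W → ℕ) : T ⊕ E × W → ℕ
  | .inl _ => 0
  | .inr p => idx p.1 * B + Z p.2 + 1

variable {adj R em} {y : T → ℕ} {up : W → Prop} {idx : E → ℕ} {B : ℕ} {X Z : W → ℕ}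

lemma nX_inr (p : E × W) : 4 * y (em p.1 p.2) ≤ nX R em y up (.inr p) ∧
    nX R em y up (.inr p) ≤ 4 * y (em p.1 p.2) + 3 := by
  simp only [nX]; split_ifs <;> omega

lemma nX_nb {t : T} {c : T ⊕ E × W} (h : nadj adj R em (.inl t) c) :
    4 * y t ≤ nX R em y up c ∧ nX R em y up c ≤ 4 * y t + 2 := by
  rcases c with t' | p
  · exact h.elim
  · obtain ⟨h1, rfl⟩ := h
    simp only [nX, if_pos h1]; split_ifs <;> omega

lemma cov_top (hy : Injective y) (a : T ⊕ E × W) (t : T) (h1 : a ≠ .inl t)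
    (h2 : ¬ nadj adj R em a (.inl t)) (Z : T ⊕ E × W → ℕ) :
    Cov (nadj adj R em) (nX R em y up) Z a (.inl t) := by
  have key : nX R em y up a < 4 * y t ∨ 4 * y t + 2 < nX R em y up a := by
    rcases a with t' | p
    · have : y t' ≠ y t := fun h => h1 (by rw [hy h])
      simp only [nX]; omega
    · by_cases h : em p.1 p.2 = t
      · have h3 : ¬ R p.2 := fun hR => h2 ⟨hR, h⟩
        simp only [nX, if_neg h3, h]; omega
      · have : y (em p.1 p.2) ≠ y t := fun h' => h (hy h')
        have := nX_inr (R := R) (em := em) (y := y) (up := up) p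
        omega
  rcases key with h | h
  · refine Or.inr (Or.inl ⟨by simp only [nX] at h ⊢; omega, fun c hc => ?_⟩)
    have := nX_nb (y := y) (up := up) hc; omega
  · refine Or.inl ⟨by simp only [nX] at h ⊢; omega, fun c hc => ?_⟩
    have := nX_nb (y := y) (up := up) hc; omega

lemma cov_far (hB : ∀ a, Z a < B) (p q : E × W) (h : idx q.1 < idx p.1) (X : T ⊕ E × W → ℕ) :
    Cov (nadj adj R em) X (nZ idx B Z) (.inr p) (.inr q) := by
  refine Or.inr (Or.inr fun c hc => ?_)
  rcases c with t | c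
  · simp [nZ]
  · obtain ⟨h1, _⟩ := hc
    simp only [nZ, ← h1]
    have := lex_lt (z' := Z p.2) h (hB c.2)
    omega

lemma nX_lt (hm : ∀ e a b, X a < X b → y (em e a) < y (em e b)) (e : E) {a b : W}
    (h : X a < X b) : nX R em y up (.inr (e, a)) < nX R em y up (.inr (e, b)) := by
  have h1 := nX_inr (R := R) (em := em) (y := y) (up := up) (e, a)
  have h2 := nX_inr (R := R) (em := em) (y := y) (up := up) (e, b)
  have := hm e a b h
  simp only at h1 h2
  omega

lemma nZ_dom (e : E) {a b : W} (h : ∀ c, adj b c → Z c < Z a) (c : T ⊕ E × W)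
    (hc : nadj adj R em (.inr (e, b)) c) : nZ idx B Z c < nZ (T := T) idx B Z (.inr (e, a)) := by
  rcases c with t | ⟨e', c⟩
  · simp [nZ]
  · obtain ⟨h1, h2⟩ := hc
    simp only at h1 h2
    subst h1
    have := h c h2
    simp only [nZ]; omega

lemma cov_same (hm : ∀ e a b, X a < X b → y (em e a) < y (em e b)) (e : E) {a b : W}
    (h : Cov adj X Z a b) :
    Cov (nadj adj R em) (nX R em y up) (nZ idx B Z) (.inr (e, a)) (.inr (e, b)) := by
  rcases h with ⟨h1, h2⟩ | ⟨h1, h2⟩ | h
  · refine Or.inl ⟨nX_lt hm e h1, fun c hc => ?_⟩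
    rcases c with t | ⟨e', c⟩
    · obtain ⟨_, rfl⟩ := hc
      have h3 := nX_inr (R := R) (em := em) (y := y) (up := up) (e, a)
      have := hm e _ _ h1
      simp only [nX] at h3 ⊢
      omega
    · obtain ⟨h3, h4⟩ := hc
      simp only at h3 h4
      subst h3
      exact nX_lt hm e (h2 c h4)
  · refine Or.inr (Or.inl ⟨nX_lt hm e h1, fun c hc => ?_⟩)
    rcases c with t | ⟨e', c⟩
    · obtain ⟨_, rfl⟩ := hc
      have h3 := nX_inr (R := R) (em := em) (y := y) (up := up) (e, a)
      have := hm e _ _ h1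
      simp only [nX] at h3 ⊢
      omega
    · obtain ⟨h3, h4⟩ := hc
      simp only at h3 h4
      subst h3
      exact nX_lt hm e (h2 c h4)
  · exact Or.inr (Or.inr (nZ_dom e h))

lemma ori_step (hm : ∀ e a b, X a < X b → y (em e a) < y (em e b)) {r : W → ℕ} {r0 : ℕ}
    (h : ∀ a c, adj a c → r c < r a → X c < X a) (a c : T ⊕ E × W) (hac : nadj adj R em a c)
    (hr : Sum.elim (fun _ => r0) (fun p => r p.2) c < Sum.elim (fun _ => r0) (fun p => r p.2) a) :
    nX R em y (fun a => r0 < r a) c < nX R em y (fun a => r0 < r a) a := by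
  rcases a with t | ⟨e, a⟩ <;> rcases c with t' | ⟨e', c⟩
  · exact hac.elim
  · obtain ⟨h1, rfl⟩ := hac
    simp only [Sum.elim_inl, Sum.elim_inr] at hr
    have : ¬ r0 < r c := by omega
    simp only [nX, if_pos h1, if_neg this]; omega
  · obtain ⟨h1, rfl⟩ := hac
    simp only [Sum.elim_inl, Sum.elim_inr] at hr
    simp only [nX, if_pos h1, if_pos hr]; omega
  · obtain ⟨h1, h2⟩ := hac
    simp only at h1 h2
    subst h1
    exact nX_lt hm e (h a c h2 hr)

end Step

variable {V : Type} {H : V → V → Prop} {ρ ρ' : V → ℕ} {k : ℕ}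

lemma stage_base (hk : 0 < k) : Nonempty (Stage H ρ ρ' k ∅ ∅ ∅) :=
  ⟨{ W := Empty, fin := inferInstance, adj := fun _ _ => False, π := Empty.elim
     X := Empty.elim, X' := Empty.elim, Z := Empty.elim, Z' := Empty.elim
     symm := fun a => a.elim, hom := fun a => a.elim, mem := fun a => a.elim
     ram := fun _ _ => ⟨fun _ => ⟨0, hk⟩, by simp, by simp⟩
     cov := fun a => a.elim, ori := fun a => a.elim, ori' := fun a => a.elim
     dia := fun a => a.elim, dia' := fun a => a.elim }⟩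

lemma stage_step (hs : ∀ u v, H u v → H v u) (hi : ∀ u, ¬ H u u) {U D D' : Set V}
    (s : Stage H ρ ρ' k U D D') (w : V) (hw : w ∉ D) (hw' : w ∉ D') :
    Nonempty (Stage H ρ ρ' k (insert w U) D D') := by
  classical
  have := s.fin
  obtain ⟨x, hx, hx1⟩ := refine_inj (fun a : Option s.W => a.elim 0 s.X)
  obtain ⟨x', hx', hx1'⟩ := refine_inj (fun a : Option s.W => a.elim 0 s.X')
  obtain ⟨T, _, y, y', hy, hy', -, hR⟩ := ramsey (Option s.W) (Fin k) x x' hx hx' k
  let E := {e : Option s.W → T // (∀ a b, x a < x b → y (e a) < y (e b)) ∧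
    (∀ a b, x' a < x' b → y' (e a) < y' (e b))}
  let em : E → s.W → T := fun e a => e.1 (some a)
  let R : s.W → Prop := fun a => H (s.π a) w
  obtain ⟨idx, hidx, -⟩ := refine_inj (fun _ : E => 0)
  obtain ⟨B, hB⟩ := exists_bound s.Z
  obtain ⟨B', hB'⟩ := exists_bound s.Z'
  have hm : ∀ e a b, s.X a < s.X b → y (em e a) < y (em e b) :=
    fun e a b h => e.2.1 _ _ (hx1 (some a) (some b) h)
  have hm' : ∀ e a b, s.X' a < s.X' b → y' (em e a) < y' (em e b) :=
    fun e a b h => e.2.2 _ _ (hx1' (some a) (some b) h)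
  have hsym : ∀ a b, nadj s.adj R em a b → nadj s.adj R em b a := by
    rintro (t | p) (t' | q) h
    · exact h
    · exact h
    · exact h
    · exact ⟨h.1.symm, s.symm _ _ h.2⟩
  refine ⟨{ W := T ⊕ E × s.W, fin := inferInstance, adj := nadj s.adj R em
            π := Sum.elim (fun _ => w) (fun p => s.π p.2)
            X := nX R em y (fun a => ρ w < ρ (s.π a))
            X' := nX R em y' (fun a => ρ' w < ρ' (s.π a))
            Z := nZ idx B s.Z, Z' := nZ idx B' s.Z'
            symm := hsym, hom := ?_, mem := ?_, ram := ?_, cov := ?_, ori := ?_, ori' := ?_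
            dia := ?_, dia' := ?_ }⟩
  · rintro (t | p) (t' | q) h
    · exact h.elim
    · exact hs _ _ h.1
    · exact h.1
    · exact s.hom _ _ h.2
  · rintro (t | p)
    · simp
    · exact Set.mem_insert_of_mem _ (s.mem _)
  · intro c hc
    obtain ⟨e, γ, h1, h2, h3⟩ := hR Finset.univ (fun t => c (.inl t)) inferInstance (by simp)
      (fun _ => Finset.mem_univ _)
    let e' : E := ⟨e, h2, h3⟩
    obtain ⟨φ, hφ1, hφ2⟩ := s.ram (fun a => c (.inr (e', a)))
      (fun a b hab => hc _ _ ⟨rfl, hab⟩)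
    have key : ∀ u ∈ U, H u w → φ u ≠ γ := by
      intro u hu huw
      obtain ⟨a, rfl, ha⟩ := hφ2 u hu
      rw [← ha, ← h1 (some a)]
      exact hc _ _ ⟨huw, rfl⟩
    refine ⟨update φ w γ, ?_, ?_⟩
    · intro u hu v hv huv
      by_cases h4 : u = w
      · subst h4
        have h5 : v ≠ u := by rintro rfl; exact hi _ huv
        rw [update_self, update_of_ne h5]
        exact (key v (hv.resolve_left h5) (hs _ _ huv)).symm
      · by_cases h5 : v = w
        · subst h5
          rw [update_self, update_of_ne h4]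
          exact key u (hu.resolve_left h4) huv
        · rw [update_of_ne h4, update_of_ne h5]
          exact hφ1 u (hu.resolve_left h4) v (hv.resolve_left h5) huv
    · intro u hu
      by_cases h4 : u = w
      · subst h4
        exact ⟨.inl (e none), rfl, by rw [update_self]; exact h1 none⟩
      · obtain ⟨a, ha, ha'⟩ := hφ2 u (hu.resolve_left h4)
        exact ⟨.inr (e', a), ha, by rw [update_of_ne h4]; exact ha'⟩
  · intro a b hab hn
    rcases b with t | ⟨e', b⟩
    · exact Or.inl (cov_top hy a t hab hn _)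
    · rcases a with t | ⟨e, a⟩
      · exact Or.inr (cov_top hy' _ t hab.symm (fun h => hn (hsym _ _ h)) _)
      · by_cases he : e = e'
        · subst he
          rcases s.cov a b (fun h => hab (by rw [h])) (fun h => hn ⟨rfl, h⟩) with h | h
          · exact Or.inl (cov_same hm e h)
          · exact Or.inr (cov_same hm' e h)
        · rcases lt_or_gt_of_ne (fun h => he (hidx h)) with h | h
          · exact Or.inr (cov_far hB' (e', b) (e, a) h _)
          · exact Or.inl (cov_far hB (e, a) (e', b) h _)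
  · intro a c hac hr
    refine ori_step hm (r := fun a => ρ (s.π a)) s.ori a c hac ?_
    rcases a with _ | _ <;> rcases c with _ | _ <;> exact hr
  · intro a c hac hr
    refine ori_step hm' (r := fun a => ρ' (s.π a)) s.ori' a c hac ?_
    rcases a with _ | _ <;> rcases c with _ | _ <;> exact hr
  · rintro (t | ⟨e, a⟩) ha
    · exact absurd ha hw
    · exact nZ_dom e (s.dia a ha)
  · rintro (t | ⟨e, a⟩) ha
    · exact absurd ha hw'
    · exact nZ_dom e (s.dia' a ha)

lemma stage_steps (hs : ∀ u v, H u v → H v u) (hi : ∀ u, ¬ H u u) {U D D' : Set V}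
    (s : Stage H ρ ρ' k U D D') (A : Set V) (hA : A.Finite) (hD : ∀ w ∈ A, w ∉ D ∧ w ∉ D') :
    Nonempty (Stage H ρ ρ' k (A ∪ U) D D') := by
  induction A, hA using Set.Finite.induction_on with
  | empty => rw [Set.empty_union]; exact ⟨s⟩
  | @insert w A _ _ ih =>
    obtain ⟨s'⟩ := ih (fun v hv => hD v (Set.mem_insert_of_mem _ hv))
    rw [Set.insert_union]
    exact stage_step hs hi s' w (hD w (Set.mem_insert _ _)).1 (hD w (Set.mem_insert _ _)).2

lemma stage_reset {D D' : Set V} (hD : ∀ u ∈ D, ∀ v ∈ D, ¬ H u v)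
    (hD' : ∀ u ∈ D', ∀ v ∈ D', ¬ H u v) (hdis : ∀ u ∈ D, u ∉ D')
    (s : Stage H ρ ρ' k (D ∪ D') ∅ ∅) : Nonempty (Stage H ρ ρ' k (D ∪ D') D D') := by
  classical
  have := s.fin
  obtain ⟨B, hB⟩ := exists_bound s.Z
  obtain ⟨B', hB'⟩ := exists_bound s.Z'
  have hnb : ∀ a c, s.adj a c → (s.π a ∈ D ↔ s.π c ∉ D) := by
    intro a c h
    refine ⟨fun h1 h2 => hD _ h1 _ h2 (s.hom _ _ h), fun h1 => ?_⟩
    by_contra h2
    exact hD' _ ((s.mem a).resolve_left h2) _ ((s.mem c).resolve_left h1) (s.hom _ _ h)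
  refine ⟨{ s with
    Z := fun a => (if s.π a ∈ D then B else 0) + s.Z a
    Z' := fun a => (if s.π a ∈ D then 0 else B') + s.Z' a
    cov := ?_, dia := ?_, dia' := ?_ }⟩
  · intro a b hab hn
    by_cases ha : s.π a ∈ D <;> by_cases hb : s.π b ∈ D
    · refine Or.inl (Or.inr (Or.inr fun c hc => ?_))
      have := hB c
      simp only [if_pos ha, if_neg ((hnb b c hc).1 hb)]; omega
    · rcases s.cov a b hab hn with (h | h | h) | (h | h | h)
      · exact Or.inl (Or.inl h)
      · exact Or.inl (Or.inr (Or.inl h))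
      · refine Or.inl (Or.inr (Or.inr fun c hc => ?_))
        have := h c hc
        simp only [if_pos ha]; split_ifs <;> omega
      · exact Or.inr (Or.inl h)
      · exact Or.inr (Or.inr (Or.inl h))
      · refine Or.inr (Or.inr (Or.inr fun c hc => ?_))
        have := h c hc
        simp only [if_neg hb]; split_ifs <;> omega
    · rcases s.cov a b hab hn with (h | h | h) | (h | h | h)
      · exact Or.inl (Or.inl h)
      · exact Or.inl (Or.inr (Or.inl h))
      · refine Or.inl (Or.inr (Or.inr fun c hc => ?_))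
        have := h c hc
        simp only [if_neg ha, if_neg ((hnb b c hc).1 hb)]; omega
      · exact Or.inr (Or.inl h)
      · exact Or.inr (Or.inr (Or.inl h))
      · refine Or.inr (Or.inr (Or.inr fun c hc => ?_))
        have := h c hc
        have hc' : s.π c ∈ D := by
          by_contra h0; exact ha ((hnb a c hc).2 h0)
        simp only [if_pos hb, if_pos hc']; omega
    · refine Or.inr (Or.inr (Or.inr fun c hc => ?_))
      have := hB' c
      have hc' : s.π c ∈ D := by
        by_contra h0; exact ha ((hnb a c hc).2 h0)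
      simp only [if_neg hb, if_pos hc']; omega
  · intro a ha c hc
    have := hB c
    simp only [if_pos ha, if_neg ((hnb a c hc).1 ha)]; omega
  · intro a ha c hc
    have := hB' c
    have ha' : s.π a ∉ D := fun h => hdis _ h ha
    have hc' : s.π c ∈ D := by
      by_contra h0; exact ha' ((hnb a c hc).2 h0)
    simp only [if_neg ha', if_pos hc']; omega

theorem stage_final [Finite V] (hk : 0 < k) (hs : ∀ u v, H u v → H v u) (hi : ∀ u, ¬ H u u)
    {D D' : Set V} (hD : ∀ u ∈ D, ∀ v ∈ D, ¬ H u v)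
    (hD' : ∀ u ∈ D', ∀ v ∈ D', ¬ H u v) (hdis : ∀ u ∈ D, u ∉ D') :
    Nonempty (Stage H ρ ρ' k Set.univ D D') := by
  obtain ⟨s0⟩ := stage_base (H := H) (ρ := ρ) (ρ' := ρ') hk
  obtain ⟨s1⟩ := stage_steps hs hi s0 (D ∪ D') (Set.toFinite _) (by simp)
  rw [Set.union_empty] at s1
  obtain ⟨s2⟩ := stage_reset hD hD' hdis s1
  obtain ⟨s3⟩ := stage_steps hs hi s2 (D ∪ D')ᶜ (Set.toFinite _) (by
    intro w hw
    simpa using hw)
  rw [Set.compl_union_self] at s3
  exact ⟨s3⟩

end Pool.Agent.P.MP_fd346d_co
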