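import Pool.Agent.P.MP_fd346d_co.Template
import Pool.Agent.P.MP_fd346d_co.Stage

set_option autoImplicit false

namespace Pool.Agent.P.MP_fd346d_co

open Function

/-- the order is the intersection of `d` linear orders -/
def Rz (P : Type) [PartialOrder P] (d : ℕ) : Prop :=
  ∃ r : Fin d → P → P → Prop, (∀ i, IsLinearOrder P (r i)) ∧ ∀ x y, x ≤ y ↔ ∀ i, r i x y

lemma rz_of_family {P ι : Type} [PartialOrder P] {d : ℕ} (e : Fin d ≃ ι) (F : ι → P → ℤ)
    (hm : ∀ i x y, x ≤ y → F i x ≤ F i y) (hs : ∀ x y, ¬ x ≤ y → ∃ i, F i y < F i x) :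
    Rz P d := by
  obtain ⟨s, hs1, hs2⟩ := extend_partialOrder (fun x y : P => x ≤ y)
  refine ⟨fun i x y => F (e i) x < F (e i) y ∨ (F (e i) x = F (e i) y ∧ s x y), fun i => ?_, ?_⟩
  · refine { refl := fun x => Or.inr ⟨rfl, refl_of s x⟩, trans := ?_, antisymm := ?_, total := ?_ }
    · rintro x y z (h1 | ⟨h1, h1'⟩) (h2 | ⟨h2, h2'⟩)
      · exact Or.inl (h1.trans h2)
      · exact Or.inl (h2 ▸ h1)
      · exact Or.inl (h1 ▸ h2)
      · exact Or.inr ⟨h1.trans h2, trans_of s h1' h2'⟩
    · rintro x y (h1 | ⟨h1, h1'⟩) (h2 | ⟨h2, h2'⟩)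
      · omega
      · omega
      · omega
      · exact antisymm_of s h1' h2'
    · intro x y
      rcases lt_trichotomy (F (e i) x) (F (e i) y) with h | h | h
      · exact Or.inl (Or.inl h)
      · rcases total_of s x y with h' | h'
        · exact Or.inl (Or.inr ⟨h, h'⟩)
        · exact Or.inr (Or.inr ⟨h.symm, h'⟩)
      · exact Or.inr (Or.inl h)
  · intro x y
    constructor
    · intro h i
      rcases (hm (e i) x y h).lt_or_eq with h' | h'
      · exact Or.inl h'
      · exact Or.inr ⟨h', hs2 x y h⟩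
    · intro h
      by_contra hn
      obtain ⟨i, hi⟩ := hs x y hn
      have := h (e.symm i)
      simp only [Equiv.apply_symm_apply] at this
      omega

lemma Rz.comap {P Q : Type} [PartialOrder P] [PartialOrder Q] {d : ℕ} (h : Rz Q d) (f : P → Q)
    (hf : ∀ x y, f x ≤ f y ↔ x ≤ y) : Rz P d := by
  obtain ⟨r, h1, h2⟩ := h
  have hinj : Injective f := fun x y h =>
    le_antisymm ((hf x y).1 h.le) ((hf y x).1 h.ge)
  refine ⟨fun i x y => r i (f x) (f y), fun i => ?_, fun x y => by rw [← hf, h2]⟩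
  have := h1 i
  exact { refl := fun x => refl_of (r i) _, trans := fun x y z => trans_of (r i)
          antisymm := fun x y h h' => hinj (antisymm_of (r i) h h')
          total := fun x y => total_of (r i) _ _ }

lemma ranks {P : Type} [PartialOrder P] [Finite P] {m M : ℕ} (h : Rz P m) (hM : m ≤ M) :
    ∃ (g : Fin M → P → ℕ) (L : ℕ), (∀ i x, g i x ≤ L) ∧ (∀ i x y, x ≤ y → g i x ≤ g i y) ∧
      ∀ x y, ¬ x ≤ y → ∃ i, g i y < g i x := by
  classical
  obtain ⟨r, h1, h2⟩ := h
  have := Fintype.ofFinite P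
  let rk : Fin m → P → ℕ := fun i x => (Finset.univ.filter fun z => r i z x).card
  refine ⟨fun i x => if h : (i : ℕ) < m then rk ⟨i, h⟩ x else 0, Fintype.card P, ?_, ?_, ?_⟩
  · intro i x
    beta_reduce
    split_ifs
    · exact Finset.card_le_univ _
    · exact Nat.zero_le _
  · intro i x y hxy
    beta_reduce
    split_ifs with h
    · apply Finset.card_le_card
      intro z hz
      simp only [Finset.mem_filter, Finset.mem_univ, true_and] at hz ⊢
      have := h1 ⟨i, h⟩
      exact trans_of (r ⟨i, h⟩) hz ((h2 x y).1 hxy _)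
    · exact le_rfl
  · intro x y hxy
    rw [h2] at hxy
    push Not at hxy
    obtain ⟨i, hi⟩ := hxy
    refine ⟨⟨i, by omega⟩, ?_⟩
    simp only [i.2, dif_pos]
    have := h1 i
    apply Finset.card_lt_card
    refine ⟨?_, fun hsub => ?_⟩
    · intro z hz
      simp only [Finset.mem_filter, Finset.mem_univ, true_and] at hz ⊢
      exact trans_of (r i) hz ((total_of (r i) x y).resolve_left hi)
    · have hx : x ∈ Finset.univ.filter fun z => r i z x := by
        simp only [Finset.mem_filter, Finset.mem_univ, true_and]; exact refl_of (r i) x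
      have := hsub hx
      simp only [Finset.mem_filter, Finset.mem_univ, true_and] at this
      exact hi this

/-- adjacency poset -/
def AdjP {W : Type} (_adj : W → W → Prop) : Type := W ⊕ W

def adjLe {W : Type} (adj : W → W → Prop) : W ⊕ W → W ⊕ W → Prop
  | .inl a, .inl b => a = b
  | .inl a, .inr b => adj a b
  | .inr _, .inl _ => False
  | .inr a, .inr b => a = b

instance {W : Type} (adj : W → W → Prop) : PartialOrder (AdjP adj) where
  le := adjLe adj
  le_refl := by rintro (a | a) <;> rfl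
  le_trans := by
    rintro (a | a) (b | b) (c | c) h1 h2 <;> simp only [adjLe] at h1 h2 ⊢ <;>
      first | (subst h1; exact h2) | (subst h2; exact h1)
  le_antisymm := by
    rintro (a | a) (b | b) h1 h2 <;> simp only [adjLe] at h1 h2 <;> rw [h1]

section Prim
variable {W : Type} [Finite W] {adj : W → W → Prop}

lemma prim (X : W → ℤ) (A : W → Prop) (hs : ∀ a b, adj a b → adj b a)
    (hA : ∀ a, A a → ∀ c, adj a c → X c < X a) :
    ∃ f : W ⊕ W → ℤ, (∀ a b, adj a b → f (.inl a) ≤ f (.inr b)) ∧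
      (∀ a b, X a < X b → f (.inl a) < f (.inl b)) ∧
      (∀ a b, X b < X a → (∀ c, adj b c → X c < X a) → f (.inr b) < f (.inl a)) ∧
      (∀ a, A a → f (.inr a) < f (.inl a)) ∧
      (∀ a b, X b < X a → f (.inl b) < f (.inr a)) ∧
      (∀ a, ¬ A a → f (.inl a) < f (.inr a)) := by
  classical
  have h : ∀ b, ∃ c ∈ {c | c = b ∨ adj b c}, ∀ c' ∈ {c | c = b ∨ adj b c}, X c' ≤ X c :=
    fun b => Set.exists_max_image _ X (Set.toFinite _) ⟨b, Or.inl rfl⟩
  choose top h1 h2 using h
  refine ⟨Sum.elim (fun a => 3 * X a + 1) (fun b => if A b then 3 * X b else 3 * X (top b) + 2),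
    ?_, ?_, ?_, ?_, ?_, ?_⟩
  · intro a b hab
    have h3 := h2 b a (Or.inr (hs _ _ hab))
    simp only [Sum.elim_inl, Sum.elim_inr]
    split_ifs with h
    · have := hA b h a (hs _ _ hab); omega
    · omega
  · intro a b hab
    simp only [Sum.elim_inl]; omega
  · intro a b hab hc
    have : X (top b) < X a := by
      rcases h1 b with h | h
      · rw [h]; exact hab
      · exact hc _ h
    simp only [Sum.elim_inl, Sum.elim_inr]
    split_ifs <;> omega
  · intro a ha
    simp only [Sum.elim_inl, Sum.elim_inr, if_pos ha]; omega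
  · intro a b hab
    have := h2 a a (Or.inl rfl)
    simp only [Sum.elim_inl, Sum.elim_inr]
    split_ifs <;> omega
  · intro a ha
    have := h2 a a (Or.inl rfl)
    simp only [Sum.elim_inl, Sum.elim_inr, if_neg ha]; omega

lemma primZ (Z : W → ℕ) (hs : ∀ a b, adj a b → adj b a) :
    ∃ f : W ⊕ W → ℤ, (∀ a b, adj a b → f (.inl a) ≤ f (.inr b)) ∧
      (∀ a b, (∀ c, adj b c → Z c < Z a) → f (.inr b) < f (.inl a)) := by
  classical
  have := Fintype.ofFinite W
  refine ⟨Sum.elim (fun a => 2 * (Z a : ℤ) + 1)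
    (fun b => 2 * (((Finset.univ.filter fun c => adj b c).sup fun c => Z c + 1 : ℕ) : ℤ)), ?_, ?_⟩
  · intro a b hab
    have : Z a + 1 ≤ (Finset.univ.filter fun c => adj b c).sup fun c => Z c + 1 :=
      Finset.le_sup (f := fun c => Z c + 1) (by simpa using hs _ _ hab)
    simp only [Sum.elim_inl, Sum.elim_inr]; omega
  · intro a b h
    have : ((Finset.univ.filter fun c => adj b c).sup fun c => Z c + 1) ≤ Z a :=
      Finset.sup_le fun c hc => h c (by simpa using hc)
    simp only [Sum.elim_inl, Sum.elim_inr]; omega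

/-- three monotone functions attached to the orders `X`, reversed `X`, and `Z` -/
lemma three (X Z : W → ℕ) (A B D : W → Prop) (hs : ∀ a b, adj a b → adj b a)
    (hA : ∀ a, A a → ∀ c, adj a c → X c < X a) (hB : ∀ a, B a → ∀ c, adj a c → X a < X c)
    (hAB : ∀ a, A a → ¬ B a) (hD : ∀ a, D a → ∀ c, adj a c → Z c < Z a) :
    ∃ f : Fin 3 → W ⊕ W → ℤ, (∀ i a b, adj a b → f i (.inl a) ≤ f i (.inr b)) ∧
      (∀ a b, a ≠ b → ∃ i, f i (.inl b) < f i (.inl a)) ∧
      (∀ a b, ∃ i, f i (.inl b) < f i (.inr a)) ∧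
      (∀ a b, Cov adj X Z a b → ∃ i, f i (.inr b) < f i (.inl a)) ∧
      (∀ a, A a ∨ B a ∨ D a → ∃ i, f i (.inr a) < f i (.inl a)) := by
  obtain ⟨Y, hY, hXY⟩ := refine_inj X
  obtain ⟨f0, a1, a2, a3, a4, a5, a6⟩ := prim (adj := adj) (fun a => (Y a : ℤ)) A hs
    (fun a ha c hc => by have := hXY _ _ (hA a ha c hc); omega)
  obtain ⟨f1, b1, b2, b3, b4, b5, b6⟩ := prim (adj := adj) (fun a => - (Y a : ℤ)) B hs
    (fun a ha c hc => by have := hXY _ _ (hB a ha c hc); omega)
  obtain ⟨f2, c1, c2⟩ := primZ (adj := adj) Z hs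
  refine ⟨![f0, f1, f2], ?_, ?_, ?_, ?_, ?_⟩
  · intro i
    fin_cases i
    exacts [a1, b1, c1]
  · intro a b hab
    rcases lt_or_gt_of_ne (fun h => hab (hY h)) with h | h
    · exact ⟨1, b2 b a (by omega)⟩
    · exact ⟨0, a2 b a (by omega)⟩
  · intro a b
    rcases lt_trichotomy (Y a) (Y b) with h | h | h
    · exact ⟨1, b5 a b (by omega)⟩
    · obtain rfl := hY h
      by_cases ha : A a
      · exact ⟨1, b6 a (hAB a ha)⟩
      · exact ⟨0, a6 a ha⟩
    · exact ⟨0, a5 a b (by omega)⟩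
  · rintro a b (⟨h1, h2⟩ | ⟨h1, h2⟩ | h)
    · exact ⟨0, a3 a b (by have := hXY _ _ h1; omega)
        (fun c hc => by have := hXY _ _ (h2 c hc); omega)⟩
    · exact ⟨1, b3 a b (by have := hXY _ _ h1; omega)
        (fun c hc => by have := hXY _ _ (h2 c hc); omega)⟩
    · exact ⟨2, c2 a b h⟩
  · rintro a (h | h | h)
    · exact ⟨0, a4 a h⟩
    · exact ⟨1, b4 a h⟩
    · exact ⟨2, c2 a a (hD a h)⟩

end Prim

/-- a small realizer of a subposet of the adjacency poset colours the graph -/
lemma col_of_rz {W : Type} {adj : W → W → Prop} (hi : ∀ a, ¬ adj a a)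
    (hs : ∀ a b, adj a b → adj b a) (S : AdjP adj → Prop) {d t : ℕ} (ht : 0 < t) (hd : d ≤ t)
    (h : Rz {x // S x} d) : ∃ col : W → Fin t, ∀ a b, adj a b →
      S (.inl a) → S (.inr a) → S (.inl b) → S (.inr b) → col a ≠ col b := by
  classical
  obtain ⟨r, h1, h2⟩ := h
  have h3 : ∀ a (p : S (.inl a)) (q : S (.inr a)), ∃ i, ¬ r i ⟨.inl a, p⟩ ⟨.inr a, q⟩ := by
    intro a p q
    by_contra hcon
    push Not at hcon
    exact hi a ((h2 _ _).2 hcon)
  choose k hk using h3
  refine ⟨fun a => if h : S (.inl a) ∧ S (.inr a) then Fin.castLE hd (k a h.1 h.2) else ⟨0, ht⟩, ?_⟩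
  intro a b hab p q p' q' he
  simp only [dif_pos (And.intro p q), dif_pos (And.intro p' q')] at he
  have he' : k a p q = k b p' q' := Fin.castLE_injective hd he
  have e1 := hk a p q
  have e2 := hk b p' q'
  rw [← he'] at e2
  have := h1 (k a p q)
  have e3 : r (k a p q) ⟨.inl a, p⟩ ⟨.inr b, q'⟩ := (h2 _ _).1 (show adj a b from hab) _
  have e4 : r (k a p q) ⟨.inl b, p'⟩ ⟨.inr a, q⟩ := (h2 _ _).1 (show adj b a from hs _ _ hab) _
  exact e1 (trans_of _ e3 (trans_of _ ((total_of _ _ _).resolve_left e2) e4))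

/-- some connected component of the adjacency poset has large dimension -/
lemma exists_component {W : Type} [Finite W] {adj : W → W → Prop} (hi : ∀ a, ¬ adj a a)
    (hs : ∀ a b, adj a b → adj b a) {t : ℕ} (ht : 2 ≤ t)
    (hc : ∀ c : W → Fin t, ∃ a b, adj a b ∧ c a = c b) :
    ∃ S : AdjP adj → Prop, (SimpleGraph.fromRel fun x y : {x // S x} => x < y).Connected ∧
      ∀ d, Rz {x // S x} d → t < d := by
  classical
  let le : AdjP adj → AdjP adj → Prop := fun x y => x ≤ y
  have : Finite (AdjP adj) := inferInstanceAs (Finite (W ⊕ W))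
  have : Finite (Quot le) := Finite.of_surjective _ Quot.mk_surjective
  by_contra hcon
  push Not at hcon
  have hconn : ∀ q : Quot le,
      (SimpleGraph.fromRel fun x y : {x // Quot.mk le x = q} => x < y).Connected := by
    intro q
    obtain ⟨x0, hx0⟩ := Quot.mk_surjective q
    have : Nonempty {x // Quot.mk le x = q} := ⟨⟨x0, hx0⟩⟩
    refine ⟨?_⟩
    have key : ∀ x y, Relation.EqvGen le x y → ∀ (hx : Quot.mk le x = q) (hy : Quot.mk le y = q),
        (SimpleGraph.fromRel fun x y : {x // Quot.mk le x = q} => x < y).Reachable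
          ⟨x, hx⟩ ⟨y, hy⟩ := by
      intro x y h
      induction h with
      | rel x y h =>
        intro hx hy
        by_cases hxy : x = y
        · subst hxy; rfl
        · apply SimpleGraph.Adj.reachable
          rw [SimpleGraph.fromRel_adj]
          exact ⟨fun h' => hxy (congrArg Subtype.val h'), Or.inl (show x < y from lt_of_le_of_ne h hxy)⟩
      | refl x => intro _ _; rfl
      | symm x y _ ih => intro hx hy; exact (ih hy hx).symm
      | trans x y z h1 _ ih1 ih2 =>
        intro hx hz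
        have hy : Quot.mk le y = q := (Quot.eqvGen_sound h1).symm.trans hx
        exact (ih1 hx hy).trans (ih2 hy hz)
    rintro ⟨x, hx⟩ ⟨y, hy⟩
    exact key x y (Quot.eqvGen_exact (hx.trans hy.symm)) hx hy
  have hcol : ∀ q : Quot le, ∃ col : W → Fin t, ∀ a b, adj a b →
      Quot.mk le (.inl a) = q → Quot.mk le (.inr a) = q → Quot.mk le (.inl b) = q →
        Quot.mk le (.inr b) = q → col a ≠ col b := by
    intro q
    obtain ⟨d, h1, h2⟩ := hcon _ (hconn q)
    exact col_of_rz hi hs (fun x => Quot.mk le x = q) (by omega) h2 h1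
  choose col hcol using hcol
  obtain ⟨enc, henc, -⟩ := refine_inj (fun _ : Quot le => 0)
  obtain ⟨a, b, hab, he⟩ := hc fun a =>
    if Quot.mk le (.inl a) = Quot.mk le (.inr a) then col (Quot.mk le (.inl a)) a
    else if enc (Quot.mk le (.inl a)) < enc (Quot.mk le (.inr a)) then ⟨0, by omega⟩
    else ⟨1, by omega⟩
  have e1 : Quot.mk le (.inl a) = Quot.mk le (.inr b) := Quot.sound (show adj a b from hab)
  have e2 : Quot.mk le (.inl b) = Quot.mk le (.inr a) := Quot.sound (show adj b a from hs _ _ hab)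
  by_cases h : Quot.mk le (.inl a) = Quot.mk le (.inr a)
  · have h' : Quot.mk le (.inl b) = Quot.mk le (.inr b) := e2.trans (h.symm.trans e1)
    rw [if_pos h, if_pos h', e2, ← h] at he
    exact hcol _ a b hab rfl h.symm (e2.trans h.symm) e1.symm he
  · have h' : ¬ Quot.mk le (.inl b) = Quot.mk le (.inr b) :=
      fun h' => h (e1.trans (h'.symm.trans e2))
    rw [if_neg h, if_neg h', e2, ← e1] at he
    have : enc (Quot.mk le (.inl a)) ≠ enc (Quot.mk le (.inr a)) := fun h0 => h (henc h0)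
    split_ifs at he with h1 h2 h2
    · omega
    · simp at he
    · simp at he
    · omega

theorem absorb (P : Type) [PartialOrder P] [Finite P] {m M : ℕ} (hP : Rz P m) (hM : m ≤ M) :
    ∃ (W : Type) (_ : Finite W) (adj : W → W → Prop), (∀ a, ¬ adj a a) ∧
      (∀ a b, adj a b → adj b a) ∧ (∀ c : W → Fin (M + 5), ∃ a b, adj a b ∧ c a = c b) ∧
      Rz (P × AdjP adj) (M + 6) := by
  classical
  obtain ⟨g, L, g1, g2, g3⟩ := ranks hP hM
  obtain ⟨V, _, H, D, hs, hi, hc, hL, hK⟩ :=
    exists_template (M + 5) ((4 * (M + 5) + 1) * L + 2 * (M + 5)) (by omega)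
  let e : Fin (M + 6) ≃ Fin M ⊕ (Fin 3 ⊕ Fin 3) :=
    finSumFinEquiv.symm.trans (Equiv.sumCongr (Equiv.refl _) (finSumFinEquiv (m := 3) (n := 3)).symm)
  choose κ0 hκ0 using hK
  let κ : V → Fin M ⊕ (Fin 3 ⊕ Fin 3) := fun v => e (κ0 v)
  have hpos : (0 : ℤ) ≤ (4 * (M + 5) + 1) * L := by positivity
  have hκ : ∀ u v, H u v → κ u ≠ κ v := by
    intro u v huv h
    have h1 : κ0 u = κ0 v := e.injective h
    have h2 := hκ0 u
    have h3 := hκ0 v
    have h4 := (abs_le.1 (hL (κ0 u) u v huv)).2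
    rw [← h1] at h3
    push_cast at h2 h3 h4
    linarith
  let ρ : (Fin 3 → Fin 3 ⊕ Fin 3) → V → ℕ := fun s v =>
    if κ v = .inr (s 0) then 2 else if κ v = .inr (s 1) then 0 else 1
  obtain ⟨s⟩ := stage_final (H := H) (ρ := ρ .inl) (ρ' := ρ .inr) (k := M + 5)
    (D := {v | κ v = .inr (.inl 2)}) (D' := {v | κ v = .inr (.inr 2)}) (by omega) hs hi
    (fun u hu v hv h => hκ u v h (hu.trans hv.symm))
    (fun u hu v hv h => hκ u v h (hu.trans hv.symm))
    (fun u hu hu' => by simpa using hu.symm.trans hu')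
  have := s.fin
  have hup : ∀ (σ : Fin 3 → Fin 3 ⊕ Fin 3) a c, κ (s.π a) = .inr (σ 0) → s.adj a c →
      ρ σ (s.π c) < ρ σ (s.π a) := by
    intro σ a c ha hac
    have h1 : ¬ κ (s.π c) = .inr (σ 0) := fun h => hκ _ _ (s.hom _ _ hac) (ha.trans h.symm)
    simp only [ρ, if_pos ha, if_neg h1]
    split_ifs <;> omega
  have hdn : ∀ (σ : Fin 3 → Fin 3 ⊕ Fin 3), σ 0 ≠ σ 1 → ∀ a c, κ (s.π a) = .inr (σ 1) →
      s.adj a c → ρ σ (s.π a) < ρ σ (s.π c) := by
    intro σ hσ a c ha hac
    have h1 : ¬ κ (s.π c) = .inr (σ 1) := fun h => hκ _ _ (s.hom _ _ hac) (ha.trans h.symm)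
    have h2 : ¬ κ (s.π a) = .inr (σ 0) := fun h => hσ (by simpa using h.symm.trans ha)
    simp only [ρ, if_pos ha, if_neg h1, if_neg h2]
    split_ifs <;> omega
  obtain ⟨f, a1, a2, a3, a4, a5⟩ := three (adj := s.adj) s.X s.Z
    (fun a => κ (s.π a) = .inr (.inl 0)) (fun a => κ (s.π a) = .inr (.inl 1))
    (fun a => κ (s.π a) = .inr (.inl 2)) s.symm
    (fun a ha c hc => s.ori a c hc (hup .inl a c ha hc))
    (fun a ha c hc => s.ori c a (s.symm _ _ hc) (hdn .inl (by simp) a c ha hc))
    (fun a ha hb => by simpa using ha.symm.trans hb) s.dia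
  obtain ⟨f', b1, b2, -, b4, b5⟩ := three (adj := s.adj) s.X' s.Z'
    (fun a => κ (s.π a) = .inr (.inr 0)) (fun a => κ (s.π a) = .inr (.inr 1))
    (fun a => κ (s.π a) = .inr (.inr 2)) s.symm
    (fun a ha c hc => s.ori' a c hc (hup .inr a c ha hc))
    (fun a ha c hc => s.ori' c a (s.symm _ _ hc) (hdn .inr (by simp) a c ha hc))
    (fun a ha hb => by simpa using ha.symm.trans hb) s.dia'
  let h : Fin M → s.W ⊕ s.W → ℤ := fun i =>
    Sum.elim (fun a => D (e.symm (.inl i)) (s.π a))
      (fun b => 2 * (M + 5) - D (e.symm (.inl i)) (s.π b))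
  have hh : ∀ i (x y : AdjP s.adj), x ≤ y → h i x ≤ h i y ∧ h i y ≤ h i x + 4 * (M + 5) := by
    rintro i (a | a) (b | b) hxy
    · obtain rfl : a = b := hxy
      constructor <;> omega
    · have := abs_le.1 (hL (e.symm (.inl i)) _ _ (s.hom a b hxy))
      push_cast at this
      simp only [h, Sum.elim_inl, Sum.elim_inr]
      omega
    · exact hxy.elim
    · obtain rfl : a = b := hxy
      constructor <;> omega
  have hf : ∀ (φ : s.W ⊕ s.W → ℤ), (∀ a b, s.adj a b → φ (.inl a) ≤ φ (.inr b)) →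
      ∀ x y : AdjP s.adj, x ≤ y → φ x ≤ φ y := by
    rintro φ hφ (a | a) (b | b) hxy
    · obtain rfl : a = b := hxy
      rfl
    · exact hφ a b hxy
    · exact hxy.elim
    · obtain rfl : a = b := hxy
      rfl
  refine ⟨s.W, s.fin, s.adj, fun a ha => hi _ (s.hom a a ha), s.symm, ?_, ?_⟩
  · intro c
    by_contra hcon
    push Not at hcon
    obtain ⟨φ, h1, -⟩ := s.ram c hcon
    obtain ⟨u, v, huv, h2⟩ := hc φ
    exact h1 u trivial v trivial huv h2
  · refine rz_of_family e (Sum.elim (fun i x => h i x.2 + (4 * (M + 5) + 1) * g i x.1)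
      (Sum.elim (fun i x => f i x.2) (fun i x => - f' i (Sum.swap x.2)))) ?_ ?_
    · rintro (i | i | i) x y hxy
      · have h1 := (hh i _ _ hxy.2).1
        have h2 : (g i x.1 : ℤ) ≤ g i y.1 := by exact_mod_cast g2 i _ _ hxy.1
        simp only [Sum.elim_inl]
        nlinarith
      · exact hf (f i) (a1 i) _ _ hxy.2
      · exact hf (fun x => - f' i (Sum.swap x))
          (fun a b hab => neg_le_neg (b1 i b a (s.symm _ _ hab))) _ _ hxy.2
    · rintro ⟨p, q⟩ ⟨p', q'⟩ hxy
      by_cases hq : q ≤ q'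
      · obtain ⟨i, hi⟩ := g3 p p' (fun hp => hxy ⟨hp, hq⟩)
        refine ⟨.inl i, ?_⟩
        have h1 := (hh i _ _ hq).2
        have h2 : (g i p' : ℤ) + 1 ≤ g i p := by exact_mod_cast hi
        simp only [Sum.elim_inl]
        nlinarith
      · rcases q with a | a <;> rcases q' with b | b
        · obtain ⟨i, hi⟩ := a2 a b hq
          exact ⟨.inr (.inl i), hi⟩
        · by_cases hab : a = b
          · subst hab
            rcases hk : κ (s.π a) with i | i | i
            · refine ⟨.inl i, ?_⟩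
              have h1 := hκ0 (s.π a)
              have h2 : κ0 (s.π a) = e.symm (.inl i) := by
                rw [← hk]; simp [κ]
              rw [h2] at h1
              have h3 : (g i p' : ℤ) ≤ L := by exact_mod_cast g1 i p'
              have h4 : (0 : ℤ) ≤ g i p := by positivity
              push_cast at h1
              simp only [Sum.elim_inl, h, Sum.elim_inr]
              nlinarith
            · obtain ⟨j, hj⟩ := a5 a (by rw [hk]; fin_cases i <;> simp)
              exact ⟨.inr (.inl j), hj⟩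
            · obtain ⟨j, hj⟩ := b5 a (by rw [hk]; fin_cases i <;> simp)
              exact ⟨.inr (.inr j), neg_lt_neg hj⟩
          · rcases s.cov a b hab hq with h1 | h1
            · obtain ⟨j, hj⟩ := a4 a b h1
              exact ⟨.inr (.inl j), hj⟩
            · obtain ⟨j, hj⟩ := b4 b a h1
              exact ⟨.inr (.inr j), neg_lt_neg hj⟩
        · obtain ⟨i, hi⟩ := a3 a b
          exact ⟨.inr (.inl i), hi⟩
        · obtain ⟨i, hi⟩ := b2 b a (fun h => hq h.symm)
          exact ⟨.inr (.inr i), neg_lt_neg hi⟩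

theorem main (P : Type) [PartialOrder P] [Finite P] [Nonempty P] {m n : ℕ} (hP : Rz P m)
    (hn : m + 6 ≤ n) : ∃ (Q : Type) (_ : PartialOrder Q), Finite Q ∧
      (SimpleGraph.fromRel fun x y : Q => x < y).Connected ∧
      IsLeast {d | Rz Q d} n ∧ IsLeast {d | Rz (P × Q) d} n := by
  obtain ⟨M, rfl⟩ : ∃ M, n = M + 6 := ⟨n - 6, by omega⟩
  obtain ⟨W, _, adj, hi, hs, hc, hR⟩ := absorb P hP (show m ≤ M by omega)
  obtain ⟨S, h1, h2⟩ := exists_component hi hs (by omega) hc
  have : Finite (AdjP adj) := inferInstanceAs (Finite (W ⊕ W))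
  have h3 : Rz (P × {x // S x}) (M + 6) := hR.comap (fun x => (x.1, x.2.1)) (fun _ _ => Iff.rfl)
  have h4 : ∀ d, Rz (P × {x // S x}) d → Rz {x // S x} d := fun d h =>
    h.comap (fun x => (Classical.arbitrary P, x)) (fun _ _ => by simp)
  exact ⟨{x // S x}, inferInstance, inferInstance, h1, ⟨h4 _ h3, fun d hd => h2 d hd⟩,
    ⟨h3, fun d hd => h2 d (h4 d hd)⟩⟩

end Pool.Agent.P.MP_fd346d_co
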