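import Mathlib

set_option autoImplicit false

namespace Pool.Agent.P.MP_fd346d_co

/-- The two-element antichain. -/
def AC : Type := Bool

instance : DecidableEq AC := inferInstanceAs (DecidableEq Bool)
instance : Fintype AC := inferInstanceAs (Fintype Bool)

instance : PartialOrder AC where
  le x y := x = y
  le_refl _ := rfl
  le_trans _ _ _ h1 h2 := Eq.trans h1 h2
  le_antisymm _ _ h _ := h

instance : DecidableRel (fun x y : AC => x ≤ y) := fun x y => inferInstanceAs (Decidable (x = y))

/-- first point -/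
def a0 : AC := false
/-- second point -/
def a1 : AC := true

theorem a0_ne_a1 : a0 ≠ a1 := by decide

/-- 0/1 value of a point of the antichain -/
def val (x : AC) : ℕ := if x = a1 then 1 else 0
/-- 0/1 value of a Boolean -/
def bval (x : Bool) : ℕ := if x = true then 1 else 0

/-- A family of rank functions gives a family of linear orders. -/
theorem linear_of_inj {X : Type} {d : ℕ} (f : Fin d → X → ℕ) (hf : ∀ i, Function.Injective (f i)) :
    ∀ i, (∀ x, f i x ≤ f i x) ∧ (∀ x y z, f i x ≤ f i y → f i y ≤ f i z → f i x ≤ f i z) ∧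
      (∀ x y, f i x ≤ f i y → f i y ≤ f i x → x = y) ∧ (∀ x y, f i x ≤ f i y ∨ f i y ≤ f i x) :=
  fun i => ⟨fun _ => le_rfl, fun _ _ _ => le_trans, fun _ _ h1 h2 => hf i (le_antisymm h1 h2),
    fun _ _ => le_total _ _⟩

/-- A poset with two incomparable points has no realizer with fewer than two orders. -/
theorem two_le_of_incomp {X : Type} [PartialOrder X] (x y : X) (hxy : ¬ x ≤ y) (hyx : ¬ y ≤ x)
    (d : ℕ) (r : Fin d → X → X → Prop) (htot : ∀ i, ∀ x y, r i x y ∨ r i y x)
    (hr : ∀ x y, x ≤ y ↔ ∀ i, r i x y) : 2 ≤ d := by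
  by_contra hlt
  have hsub : Subsingleton (Fin d) := by
    rw [Fin.subsingleton_iff_le_one]; omega
  rw [hr] at hxy hyx
  push Not at hxy hyx
  obtain ⟨i, hi⟩ := hxy
  obtain ⟨j, hj⟩ := hyx
  have : i = j := Subsingleton.elim _ _
  subst this
  rcases htot i x y with h | h
  · exact hi h
  · exact hj h

/-- realizer of the antichain -/
def fP : Fin 2 → AC → ℕ := ![fun x => val x, fun x => 1 - val x]
/-- realizer of the square -/
def fQ : Fin 2 → Bool × Bool → ℕ :=
  ![fun x => 2 * bval x.1 + bval x.2, fun x => 2 * bval x.2 + bval x.1]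
/-- realizer of the product -/
def fPQ : Fin 2 → AC × (Bool × Bool) → ℕ :=
  ![fun x => 4 * val x.1 + 2 * bval x.2.1 + bval x.2.2,
    fun x => 4 * (1 - val x.1) + 2 * bval x.2.2 + bval x.2.1]

theorem fP_inj : ∀ i, Function.Injective (fP i) := by decide
theorem fQ_inj : ∀ i, Function.Injective (fQ i) := by decide
theorem fPQ_inj : ∀ i, Function.Injective (fPQ i) := by decide

theorem fP_real : ∀ x y : AC, x ≤ y ↔ ∀ i, fP i x ≤ fP i y := by decide
theorem fQ_real : ∀ x y : Bool × Bool, x ≤ y ↔ ∀ i, fQ i x ≤ fQ i y := by decide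
theorem fPQ_real : ∀ x y : AC × (Bool × Bool), x ≤ y ↔ ∀ i, fPQ i x ≤ fPQ i y := by
  intro x y
  rw [Prod.le_def]
  revert x y
  decide

end Pool.Agent.P.MP_fd346d_co
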