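import Pool.Agent.P.MP_fd346d_co.Absorb

set_option autoImplicit false

namespace Pool.Agent.P.MP_fd346d_co

open Function

lemma ws1 : ∀ (k : ℕ) (d : Fin k → ℤ) (A : ℤ), (∀ j, d j ≤ A) →
    ∑ j : Fin k, 2 ^ (j : ℕ) * d j ≤ A * (2 ^ k - 1) := by
  intro k
  induction k with
  | zero => intro d A _; simp
  | succ k ih =>
    intro d A h
    rw [Fin.sum_univ_castSucc]
    have h1 := ih (fun j => d j.castSucc) A (fun j => h _)
    have h2 := h (Fin.last k)
    have h3 : (0 : ℤ) < 2 ^ k := by positivity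
    simp only [Fin.val_castSucc, Fin.val_last] at h1 ⊢
    rw [pow_succ]
    nlinarith

lemma ws2 : ∀ (k : ℕ) (d : Fin k → ℤ) (A B : ℤ) (j0 : Fin k), (∀ j, d j ≤ A + B) →
    d j0 ≤ A - B → (∀ j, j0 < j → d j ≤ A) →
    ∑ j : Fin k, 2 ^ (j : ℕ) * d j ≤ A * (2 ^ k - 1) - B := by
  intro k
  induction k with
  | zero => intro d A B j0; exact j0.elim0
  | succ k ih =>
    intro d A B j0 h h0 h1
    rw [Fin.sum_univ_castSucc]
    have h3 : (0 : ℤ) < 2 ^ k := by positivity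
    rcases Fin.eq_castSucc_or_eq_last j0 with ⟨j1, rfl⟩ | rfl
    · have h4 := ih (fun j => d j.castSucc) A B j1 (fun j => h _) h0
        (fun j hj => h1 _ (Fin.castSucc_lt_castSucc_iff.2 hj))
      have h2 := h1 (Fin.last k) (Fin.castSucc_lt_last j1)
      simp only [Fin.val_castSucc, Fin.val_last] at h4 ⊢
      rw [pow_succ]
      nlinarith
    · have h4 := ws1 k (fun j => d j.castSucc) (A + B) (fun j => h _)
      simp only [Fin.val_castSucc, Fin.val_last] at h4 ⊢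
      rw [pow_succ]
      nlinarith

/-- shared wide functions `h` and six private functions `φ` on a poset -/
structure Wide (Q : Type) [PartialOrder Q] (M : ℕ) (A B : ℤ) where
  h : Fin M → Q → ℤ
  φ : Fin 6 → Q → ℤ
  mono : ∀ i x y, x ≤ y → h i x ≤ h i y
  jump : ∀ i x y, x ≤ y → h i y ≤ h i x + A
  bound : ∀ i x y, h i y ≤ h i x + A + B
  pmono : ∀ i x y, x ≤ y → φ i x ≤ φ i y
  sep : ∀ x y, ¬ x ≤ y → (∃ i, φ i y < φ i x) ∨ ∃ i, h i y ≤ h i x + A - B

lemma Wide.rz {Q : Type} [PartialOrder Q] {M : ℕ} {A B : ℤ} (w : Wide Q M A B) (hA : 0 ≤ A)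
    {P : Type} [PartialOrder P] (g : Fin M → P → ℕ) (L : ℕ) (g1 : ∀ i x, g i x ≤ L)
    (g2 : ∀ i x y, x ≤ y → g i x ≤ g i y) (g3 : ∀ x y, ¬ x ≤ y → ∃ i, g i y < g i x)
    (k : ℕ) (hB : (A * 2 ^ k + 1) * (L + 1) ≤ B) : Rz (P × (Fin k → Q)) (M + k * 6) := by
  classical
  let e : Fin (M + k * 6) ≃ Fin M ⊕ (Fin k × Fin 6) :=
    finSumFinEquiv.symm.trans (Equiv.sumCongr (Equiv.refl _) finProdFinEquiv.symm)
  have h2k : (0 : ℤ) < 2 ^ k := by positivity
  have hC : (0 : ℤ) ≤ A * 2 ^ k := by positivity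
  have hsub : ∀ (i : Fin M) (q q' : Fin k → Q), ∑ j : Fin k, 2 ^ (j : ℕ) * w.h i (q' j) =
      ∑ j : Fin k, 2 ^ (j : ℕ) * w.h i (q j) +
        ∑ j : Fin k, 2 ^ (j : ℕ) * (w.h i (q' j) - w.h i (q j)) := by
    intro i q q'
    rw [← Finset.sum_add_distrib]
    exact Finset.sum_congr rfl fun j _ => by ring
  refine rz_of_family e (Sum.elim
    (fun i x => ∑ j : Fin k, 2 ^ (j : ℕ) * w.h i (x.2 j) + (A * 2 ^ k + 1) * g i x.1)
    (fun ji x => w.φ ji.2 (x.2 ji.1))) ?_ ?_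
  · rintro (i | ⟨j, i⟩) x y hxy
    · have h1 : ∑ j : Fin k, 2 ^ (j : ℕ) * w.h i (x.2 j) ≤
          ∑ j : Fin k, 2 ^ (j : ℕ) * w.h i (y.2 j) :=
        Finset.sum_le_sum fun j _ =>
          mul_le_mul_of_nonneg_left (w.mono i _ _ (hxy.2 j)) (by positivity)
      have h2 : (g i x.1 : ℤ) ≤ g i y.1 := by exact_mod_cast g2 i _ _ hxy.1
      simp only [Sum.elim_inl]
      nlinarith
    · exact w.pmono i _ _ (hxy.2 j)
  · rintro ⟨p, q⟩ ⟨p', q'⟩ hxy
    by_cases hq : ∀ j, q j ≤ q' j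
    · obtain ⟨i, hi⟩ := g3 p p' (fun hp => hxy ⟨hp, hq⟩)
      refine ⟨.inl i, ?_⟩
      have h1 := ws1 k (fun j => w.h i (q' j) - w.h i (q j)) A
        (fun j => by have := w.jump i _ _ (hq j); linarith)
      have h2 : (g i p' : ℤ) + 1 ≤ g i p := by exact_mod_cast hi
      have h3 := hsub i q q'
      simp only [Sum.elim_inl]
      nlinarith
    · have hne : (Finset.univ.filter fun j => ¬ q j ≤ q' j).Nonempty := by
        push Not at hq
        obtain ⟨j, hj⟩ := hq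
        exact ⟨j, by simpa using hj⟩
      obtain ⟨j0, hj0, hmax⟩ := Finset.exists_max_image _ (fun j : Fin k => j) hne
      have hj0' : ¬ q j0 ≤ q' j0 := by simpa using hj0
      rcases w.sep _ _ hj0' with ⟨i, hi⟩ | ⟨i, hi⟩
      · exact ⟨.inr (j0, i), hi⟩
      · refine ⟨.inl i, ?_⟩
        have h1 := ws2 k (fun j => w.h i (q' j) - w.h i (q j)) A B j0
          (fun j => by have := w.bound i (q j) (q' j); linarith) (by linarith)
          (fun j hj => by
            have h0 : q j ≤ q' j := by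
              by_contra hcon
              exact absurd (hmax j (by simpa using hcon)) (not_le.2 hj)
            have := w.jump i _ _ h0
            linarith)
        have h2 : (g i p' : ℤ) ≤ L := by exact_mod_cast g1 i p'
        have h4 : (0 : ℤ) ≤ g i p := by positivity
        have h3 := hsub i q q'
        simp only [Sum.elim_inl]
        nlinarith

/-- restriction to a subposet -/
def Wide.restrict {Q : Type} [PartialOrder Q] {M : ℕ} {A B : ℤ} (w : Wide Q M A B)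
    (S : Q → Prop) : Wide {x // S x} M A B where
  h i x := w.h i x.1
  φ i x := w.φ i x.1
  mono i _ _ hxy := w.mono i _ _ hxy
  jump i _ _ hxy := w.jump i _ _ hxy
  bound i _ _ := w.bound i _ _
  pmono i _ _ hxy := w.pmono i _ _ hxy
  sep _ _ hxy := w.sep _ _ hxy

theorem exists_wide (M K : ℕ) (hK0 : M + 5 < K) :
    ∃ (W : Type) (_ : Finite W) (adj : W → W → Prop), (∀ a, ¬ adj a a) ∧
      (∀ a b, adj a b → adj b a) ∧ (∀ c : W → Fin (M + 5), ∃ a b, adj a b ∧ c a = c b) ∧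
      Nonempty (Wide (AdjP adj) M (4 * (M + 5)) (2 * K)) := by
  classical
  obtain ⟨V, _, H, D0, hs, hi, hc, hL0, hK⟩ := exists_template (M + 5) K (by omega)
  let D : Fin (M + 5 + 1) → V → ℤ := fun i u => max (-(K : ℤ)) (min (K : ℤ) (D0 i u))
  have hL : ∀ i u v, H u v → |D i u + D i v| ≤ 2 * (M + 5) := by
    intro i u v huv
    have := abs_le.1 (hL0 i u v huv)
    push_cast at this
    rw [abs_le]
    simp only [D]
    omega
  have hD : ∀ i u, -(K : ℤ) ≤ D i u ∧ D i u ≤ K := by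
    intro i u
    simp only [D]
    omega
  let e : Fin (M + 6) ≃ Fin M ⊕ (Fin 3 ⊕ Fin 3) :=
    finSumFinEquiv.symm.trans (Equiv.sumCongr (Equiv.refl _) (finSumFinEquiv (m := 3) (n := 3)).symm)
  choose κ0 hκ1 using hK
  have hκ0 : ∀ u, (K : ℤ) ≤ D (κ0 u) u := by
    intro u
    have := hκ1 u
    simp only [D]
    omega
  let κ : V → Fin M ⊕ (Fin 3 ⊕ Fin 3) := fun v => e (κ0 v)
  have hκ : ∀ u v, H u v → κ u ≠ κ v := by
    intro u v huv h
    have h1 : κ0 u = κ0 v := e.injective h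
    have h2 := hκ0 u
    have h3 := hκ0 v
    have h4 := (abs_le.1 (hL (κ0 u) u v huv)).2
    rw [← h1] at h3
    omega
  let ρ : (Fin 3 → Fin 3 ⊕ Fin 3) → V → ℕ := fun s v =>
    if κ v = .inr (s 0) then 2 else if κ v = .inr (s 1) then 0 else 1
  obtain ⟨s⟩ := stage_final (H := H) (ρ := ρ .inl) (ρ' := ρ .inr) (k := M + 5)
    (D := {v | κ v = .inr (.inl 2)}) (D' := {v | κ v = .inr (.inr 2)}) (by omega) hs hi
    (fun u hu v hv h => hκ u v h (hu.trans hv.symm))
    (fun u hu v hv h => hκ u v h (hu.trans hv.symm))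
    (fun u hu hu' => by simpa using hu.symm.trans hu')
  have := s.fin
  have hup : ∀ (σ : Fin 3 → Fin 3 ⊕ Fin 3) a c, κ (s.π a) = .inr (σ 0) → s.adj a c →
      ρ σ (s.π c) < ρ σ (s.π a) := by
    intro σ a c ha hac
    have h1 : ¬ κ (s.π c) = .inr (σ 0) := fun h => hκ _ _ (s.hom _ _ hac) (ha.trans h.symm)
    simp only [ρ, if_pos ha, if_neg h1]
    split_ifs <;> omega
  have hdn : ∀ (σ : Fin 3 → Fin 3 ⊕ Fin 3), σ 0 ≠ σ 1 → ∀ a c, κ (s.π a) = .inr (σ 1) →
      s.adj a c → ρ σ (s.π a) < ρ σ (s.π c) := by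
    intro σ hσ a c ha hac
    have h1 : ¬ κ (s.π c) = .inr (σ 1) := fun h => hκ _ _ (s.hom _ _ hac) (ha.trans h.symm)
    have h2 : ¬ κ (s.π a) = .inr (σ 0) := fun h => hσ (by simpa using h.symm.trans ha)
    simp only [ρ, if_pos ha, if_neg h1, if_neg h2]
    split_ifs <;> omega
  obtain ⟨f, a1, a2, a3, a4, a5⟩ := three (adj := s.adj) s.X s.Z
    (fun a => κ (s.π a) = .inr (.inl 0)) (fun a => κ (s.π a) = .inr (.inl 1))
    (fun a => κ (s.π a) = .inr (.inl 2)) s.symm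
    (fun a ha c hc => s.ori a c hc (hup .inl a c ha hc))
    (fun a ha c hc => s.ori c a (s.symm _ _ hc) (hdn .inl (by simp) a c ha hc))
    (fun a ha hb => by simpa using ha.symm.trans hb) s.dia
  obtain ⟨f', b1, b2, -, b4, b5⟩ := three (adj := s.adj) s.X' s.Z'
    (fun a => κ (s.π a) = .inr (.inr 0)) (fun a => κ (s.π a) = .inr (.inr 1))
    (fun a => κ (s.π a) = .inr (.inr 2)) s.symm
    (fun a ha c hc => s.ori' a c hc (hup .inr a c ha hc))
    (fun a ha c hc => s.ori' c a (s.symm _ _ hc) (hdn .inr (by simp) a c ha hc))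
    (fun a ha hb => by simpa using ha.symm.trans hb) s.dia'
  let h : Fin M → s.W ⊕ s.W → ℤ := fun i =>
    Sum.elim (fun a => D (e.symm (.inl i)) (s.π a))
      (fun b => 2 * (M + 5) - D (e.symm (.inl i)) (s.π b))
  have hh : ∀ i (x y : AdjP s.adj), x ≤ y → h i x ≤ h i y ∧ h i y ≤ h i x + 4 * (M + 5) := by
    rintro i (a | a) (b | b) hxy
    · obtain rfl : a = b := hxy
      constructor <;> omega
    · have := abs_le.1 (hL (e.symm (.inl i)) _ _ (s.hom a b hxy))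
      simp only [h, Sum.elim_inl, Sum.elim_inr]
      omega
    · exact hxy.elim
    · obtain rfl : a = b := hxy
      constructor <;> omega
  have hb : ∀ i (x y : AdjP s.adj), h i y ≤ h i x + 4 * (M + 5) + 2 * K := by
    rintro i (a | a) (b | b) <;>
      have h1 := hD (e.symm (.inl i)) (s.π a) <;> have h2 := hD (e.symm (.inl i)) (s.π b) <;>
      simp only [h, Sum.elim_inl, Sum.elim_inr] <;> omega
  have hf : ∀ (φ : s.W ⊕ s.W → ℤ), (∀ a b, s.adj a b → φ (.inl a) ≤ φ (.inr b)) →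
      ∀ x y : AdjP s.adj, x ≤ y → φ x ≤ φ y := by
    rintro φ hφ (a | a) (b | b) hxy
    · obtain rfl : a = b := hxy
      rfl
    · exact hφ a b hxy
    · exact hxy.elim
    · obtain rfl : a = b := hxy
      rfl
  let ψ : Fin 3 ⊕ Fin 3 → AdjP s.adj → ℤ :=
    Sum.elim (fun i x => f i x) (fun i x => - f' i (Sum.swap x))
  let e6 : Fin 3 ⊕ Fin 3 ≃ Fin 6 := finSumFinEquiv (m := 3) (n := 3)
  have hψ : ∀ x y : AdjP s.adj, (∃ i, ψ i y < ψ i x) → ∃ i, ψ (e6.symm i) y < ψ (e6.symm i) x := by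
    rintro x y ⟨i, hi⟩
    exact ⟨e6 i, by simpa using hi⟩
  refine ⟨s.W, s.fin, s.adj, fun a ha => hi _ (s.hom a a ha), s.symm, ?_,
    ⟨⟨h, fun i => ψ (e6.symm i), fun i x y hxy => (hh i x y hxy).1,
      fun i x y hxy => (hh i x y hxy).2, hb, ?_, ?_⟩⟩⟩
  · intro c
    by_contra hcon
    push Not at hcon
    obtain ⟨φ, h1, -⟩ := s.ram c hcon
    obtain ⟨u, v, huv, h2⟩ := hc φ
    exact h1 u trivial v trivial huv h2
  · intro i x y hxy
    rcases e6.symm i with i | i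
    · exact hf (f i) (a1 i) _ _ hxy
    · exact hf (fun x => - f' i (Sum.swap x))
        (fun a b hab => neg_le_neg (b1 i b a (s.symm _ _ hab))) _ _ hxy
  · intro q q' hq
    rcases q with a | a <;> rcases q' with b | b
    · obtain ⟨i, hi⟩ := a2 a b hq
      exact Or.inl (hψ _ _ ⟨.inl i, hi⟩)
    · by_cases hab : a = b
      · subst hab
        rcases hk : κ (s.π a) with i | i | i
        · refine Or.inr ⟨i, ?_⟩
          have h1 := hκ0 (s.π a)
          have h2 : κ0 (s.π a) = e.symm (.inl i) := by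
            rw [← hk]; simp [κ]
          rw [h2] at h1
          simp only [Sum.elim_inl, h, Sum.elim_inr]
          omega
        · obtain ⟨j, hj⟩ := a5 a (by rw [hk]; fin_cases i <;> simp)
          exact Or.inl (hψ _ _ ⟨.inl j, hj⟩)
        · obtain ⟨j, hj⟩ := b5 a (by rw [hk]; fin_cases i <;> simp)
          exact Or.inl (hψ _ _ ⟨.inr j, neg_lt_neg hj⟩)
      · rcases s.cov a b hab hq with h1 | h1
        · obtain ⟨j, hj⟩ := a4 a b h1
          exact Or.inl (hψ _ _ ⟨.inl j, hj⟩)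
        · obtain ⟨j, hj⟩ := b4 b a h1
          exact Or.inl (hψ _ _ ⟨.inr j, neg_lt_neg hj⟩)
    · obtain ⟨i, hi⟩ := a3 a b
      exact Or.inl (hψ _ _ ⟨.inl i, hi⟩)
    · obtain ⟨i, hi⟩ := b2 b a (fun h => hq h.symm)
      exact Or.inl (hψ _ _ ⟨.inr i, neg_lt_neg hi⟩)

theorem main_pow (P : Type) [PartialOrder P] [Finite P] [Nonempty P] {m n : ℕ} (k : ℕ)
    (hP : Rz P m) (hn : m + 6 ≤ n) : ∃ (Q : Type) (_ : PartialOrder Q), Finite Q ∧
      (SimpleGraph.fromRel fun x y : Q => x < y).Connected ∧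
      IsLeast {d | Rz Q d} n ∧ IsLeast {d | Rz (P × Q) d} n ∧
      ∀ j, 1 ≤ j → j ≤ k → Rz (P × (Fin j → Q)) (n + 6 * (j - 1)) ∧
        Rz (Fin j → Q) (n + 6 * (j - 1)) := by
  obtain ⟨M, rfl⟩ : ∃ M, n = M + 6 := ⟨n - 6, by omega⟩
  obtain ⟨g, L, g1, g2, g3⟩ := ranks hP (show m ≤ M by omega)
  obtain ⟨W, _, adj, hi, hs, hc, ⟨w⟩⟩ :=
    exists_wide M ((4 * (M + 5) * 2 ^ (k + 1) + 1) * (L + 1) + (M + 6)) (by omega)
  obtain ⟨S, h1, h2⟩ := exists_component hi hs (by omega) hc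
  have : Finite (AdjP adj) := inferInstanceAs (Finite (W ⊕ W))
  have key : ∀ j, j ≤ k + 1 → Rz (P × (Fin j → {x // S x})) (M + j * 6) := by
    intro j hj
    refine (w.restrict S).rz (by positivity) g L g1 g2 g3 j ?_
    have h3 : (2 : ℤ) ^ j ≤ 2 ^ (k + 1) := pow_le_pow_right₀ (by norm_num) hj
    have h4 : (4 * ((M : ℤ) + 5) * 2 ^ j + 1) * (L + 1) ≤
        (4 * ((M : ℤ) + 5) * 2 ^ (k + 1) + 1) * (L + 1) := by gcongr
    have h5 : (0 : ℤ) ≤ (4 * ((M : ℤ) + 5) * 2 ^ (k + 1) + 1) * (L + 1) := by positivity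
    push_cast
    linarith
  have h3 : Rz (P × {x // S x}) (M + 6) :=
    (key 1 (by omega)).comap (fun x => (x.1, fun _ => x.2))
      (fun _ _ => by simp [Prod.le_def, Pi.le_def])
  have h4 : ∀ d, Rz (P × {x // S x}) d → Rz {x // S x} d := fun d h =>
    h.comap (fun x => (Classical.arbitrary P, x)) (fun _ _ => by simp)
  refine ⟨{x // S x}, inferInstance, inferInstance, h1, ⟨h4 _ h3, fun d hd => h2 d hd⟩,
    ⟨h3, fun d hd => h2 d (h4 d hd)⟩, fun j hj1 hj2 => ?_⟩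
  have h5 : M + 6 + 6 * (j - 1) = M + j * 6 := by omega
  rw [h5]
  exact ⟨key j (by omega), (key j (by omega)).comap (fun x => (Classical.arbitrary P, x))
    (fun _ _ => by simp)⟩

end Pool.Agent.P.MP_fd346d_co
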