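import Pool.Agent.P.MP_fd346d_co.Tucker

set_option autoImplicit false

namespace Pool.Agent.P.MP_fd346d_co

open Finset

/-- maximal number of sign changes of `σ, y (j-1), …, y 0` over all fillings of the zeros -/
def sc (y : SV) : SignType → ℕ → ℕ
  | _, 0 => 0
  | σ, j + 1 => if y j = σ then sc y σ j else 1 + sc y (-σ) j

lemma sc_neg (y : SV) (j : ℕ) : ∀ σ, sc (ng y) σ j = sc y (-σ) j := by
  induction j with
  | zero => intro σ; rfl
  | succ j ih =>
    intro σ
    simp only [sc, ih]
    have : (ng y j = σ) ↔ (y j = -σ) := by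
      simp only [ng]; exact neg_eq_iff_eq_neg
    simp only [this]

lemma ne_neg_of {σ : SignType} (h : σ ≠ 0) : σ ≠ -σ := by
  revert σ; decide

lemma sc_le_succ (y : SV) (j : ℕ) : ∀ σ, σ ≠ 0 → sc y σ j ≤ sc y (-σ) j + 1 := by
  induction j with
  | zero => intro σ _; simp [sc]
  | succ j ih =>
    intro σ hσ
    have h1 := ih (-σ) (by simpa using hσ)
    have h2 := ne_neg_of hσ
    simp only [sc, neg_neg] at h1 ⊢
    by_cases ha : y j = σ
    · have hb : ¬ y j = -σ := by rw [ha]; exact h2
      rw [if_pos ha, if_neg hb]; omega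
    · by_cases hb : y j = -σ
      · rw [if_neg ha, if_pos hb]; omega
      · rw [if_neg ha, if_neg hb]; omega

lemma sc_ne (y : SV) (j : ℕ) : ∀ σ, σ ≠ 0 → (∃ i < j, y i ≠ 0) → sc y σ j ≠ sc y (-σ) j := by
  induction j with
  | zero => rintro σ _ ⟨i, hi, _⟩; omega
  | succ j ih =>
    rintro σ hσ ⟨i, hi, hy⟩
    have h2 := ne_neg_of hσ
    simp only [sc, neg_neg]
    by_cases ha : y j = σ
    · have hb : ¬ y j = -σ := by rw [ha]; exact h2
      rw [if_pos ha, if_neg hb]; omega
    · by_cases hb : y j = -σ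
      · rw [if_neg ha, if_pos hb]; omega
      · rw [if_neg ha, if_neg hb]
        have h0 : y j = 0 := by
          revert ha hb hσ; generalize y j = a; revert a σ; decide
        have hij : i ≠ j := by rintro rfl; exact hy h0
        have := ih σ hσ ⟨i, by omega, hy⟩
        omega

lemma sc_anti {y z : SV} (h : Cf y z) (j : ℕ) : ∀ σ, σ ≠ 0 → sc z σ j ≤ sc y σ j := by
  induction j with
  | zero => intro σ _; simp [sc]
  | succ j ih =>
    intro σ hσ
    have h1 := ih σ hσ
    have h2 := ih (-σ) (by simpa using hσ)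
    have h3 := sc_le_succ y j σ hσ
    simp only [sc]
    by_cases ha : y j = σ
    · have hb : z j = σ := by
        rcases h j with h' | h'
        · exact absurd (ha.symm.trans h') hσ
        · exact h'.symm.trans ha
      rw [if_pos ha, if_pos hb]; exact h1
    · by_cases hb : z j = σ
      · rw [if_neg ha, if_pos hb]; omega
      · rw [if_neg ha, if_neg hb]; omega

lemma sc_le (y : SV) (j : ℕ) : ∀ σ, sc y σ j ≤ j := by
  induction j with
  | zero => intro σ; simp [sc]
  | succ j ih =>
    intro σ
    have h1 := ih σ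
    have h2 := ih (-σ)
    simp only [sc]
    split_ifs <;> omega

lemma zeros_le (y : SV) (j : ℕ) : ∀ σ, σ ≠ 0 →
    ∑ i ∈ range j, (if y i = 0 then 1 else 0 : ℕ) ≤ sc y σ j := by
  induction j with
  | zero => intro σ _; simp [sc]
  | succ j ih =>
    intro σ hσ
    have h1 := ih σ hσ
    have h2 := ih (-σ) (by simpa using hσ)
    rw [sum_range_succ]
    simp only [sc]
    by_cases ha : y j = σ
    · have hb : ¬ y j = 0 := by rw [ha]; exact hσ
      rw [if_pos ha, if_neg hb]; omega
    · rw [if_neg ha]; split_ifs <;> omega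

lemma sc_mono (y : SV) (σ : SignType) (hσ : σ ≠ 0) : Monotone (sc y σ) := by
  apply monotone_nat_of_le_succ
  intro j
  have := sc_le_succ y j σ hσ
  simp only [sc]
  split_ifs <;> omega

/-- the sign `(-1)^i` -/
def ep : ℕ → SignType
  | 0 => 1
  | i + 1 => - ep i

lemma ep_ne (i : ℕ) : ep i ≠ 0 := by
  induction i with
  | zero => simp [ep]
  | succ i ih => simpa [ep] using ih

lemma sc_blocks (y : SV) (l : ℕ) (i : ℕ)
    (h : ∀ i' < i, ∃ j ∈ Ico (i' * l) ((i' + 1) * l), y j = - ep i') :
    i ≤ sc y (- ep i) (i * l) := by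
  induction i with
  | zero => simp
  | succ i ih =>
    have h1 := ih (fun i' hi' => h i' (by omega))
    obtain ⟨j, hj, hy⟩ := h i (by omega)
    rw [mem_Ico] at hj
    have h2 := sc_mono y (- ep i) (by simpa using ep_ne i) hj.1
    have h3 := sc_mono y (ep i) (ep_ne i) (show j + 1 ≤ (i + 1) * l by omega)
    have h4 : sc y (ep i) (j + 1) = 1 + sc y (- ep i) j := by
      simp only [sc]
      rw [if_neg]
      rw [hy]; exact (ne_neg_of (ep_ne i)).symm
    simp only [ep, neg_neg]
    omega

def Hi (N t : ℕ) (y : SV) : Prop := sc y 1 N < t ∨ sc y (-1) N < t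

def VV (N t : ℕ) : Type := {y : SV // Sup N y ∧ Hi N t y}

instance (N t : ℕ) : Finite (VV N t) := by
  apply Finite.of_injective (fun (y : VV N t) (j : Fin N) => y.1 j)
  intro y z h
  apply Subtype.ext
  funext j
  by_cases hj : j < N
  · exact congrFun h ⟨j, hj⟩
  · rw [y.2.1.2 j (by omega), z.2.1.2 j (by omega)]

def HH (N t : ℕ) (y z : VV N t) : Prop := ∀ j, y.1 j = z.1 j → y.1 j = 0

lemma Hi.neg {N t : ℕ} {y : SV} (h : Hi N t y) : Hi N t (ng y) := by
  simp only [Hi, sc_neg, neg_neg] at h ⊢
  exact h.symm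

lemma Hi.cf {N t : ℕ} {y z : SV} (h : Hi N t y) (hyz : Cf y z) : Hi N t z := by
  have h1 := sc_anti hyz N 1 (by decide)
  have h2 := sc_anti hyz N (-1) (by decide)
  simp only [Hi] at h ⊢
  omega

lemma not_colourable (N t : ℕ) (ht : 1 ≤ t) (hN : t ≤ N) (c : VV N t → Fin t) :
    ∃ u v, HH N t u v ∧ c u = c v := by
  classical
  by_contra hcon
  push Not at hcon
  have := Fintype.ofFinite (VV N t)
  let m : SV → ℕ := fun y => (univ.filter fun w : VV N t => Cf w.1 y).sup fun w => (c w : ℕ)
  have hm : ∀ y, Sup N y → Hi N t y → ∃ w : VV N t, Cf w.1 y ∧ m y = c w := by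
    intro y h1 h2
    obtain ⟨w, hw, hw'⟩ := exists_mem_eq_sup (univ.filter fun w : VV N t => Cf w.1 y)
      ⟨⟨y, h1, h2⟩, by simp only [mem_filter, mem_univ, true_and]; exact fun j => Or.inr rfl⟩
      (fun w => (c w : ℕ))
    exact ⟨w, (mem_filter.1 hw).2, hw'⟩
  let μ : SV → ℕ := fun y => if Hi N t y then (N - t) + m y else N - sc y 1 N
  have key := tucker N (N - 1) μ ?_ ?_ ?_
  · omega
  · intro x y _ _ hxy
    simp only [μ]
    by_cases hx : Hi N t x
    · rw [if_pos hx, if_pos (hx.cf hxy)]
      have : m x ≤ m y := by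
        apply Finset.sup_mono
        intro w hw
        simp only [mem_filter, mem_univ, true_and] at hw ⊢
        exact hw.trans hxy
      omega
    · have h1 := sc_anti hxy N 1 (by decide)
      rw [if_neg hx]
      simp only [Hi] at hx
      split_ifs <;> omega
  · intro x hx
    simp only [μ]
    by_cases h : Hi N t x
    · rw [if_pos h, if_pos h.neg]
      obtain ⟨w, hw, e⟩ := hm x hx h
      obtain ⟨w', hw', e'⟩ := hm (ng x) hx.neg h.neg
      have : c w ≠ c w' := by
        apply hcon
        intro j hj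
        rcases hw j with h1 | h1
        · exact h1
        · rcases hw' j with h2 | h2
          · exact hj.trans h2
          · by_contra h0
            apply ne_neg_of h0
            simp only [ng] at h2
            rw [← h1] at h2
            exact hj.trans h2
      have : (c w : ℕ) ≠ c w' := fun h => this (Fin.ext h)
      omega
    · have h' : ¬ Hi N t (ng x) := fun h' => h (by simpa [ng_ng] using h'.neg)
      rw [if_neg h, if_neg h', sc_neg]
      have h1 := sc_ne x N 1 (by decide) (by
        by_contra h0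
        push Not at h0
        apply hx.1
        funext j
        by_cases hj : j < N
        · exact h0 j hj
        · exact hx.2 j (by omega))
      have h2 := sc_le x N 1
      have h3 := sc_le x N (-1)
      omega
  · intro x hx
    simp only [μ]
    by_cases h : Hi N t x
    · rw [if_pos h]
      obtain ⟨w, _, e⟩ := hm x hx h
      have := (c w).2
      omega
    · rw [if_neg h]
      simp only [Hi] at h
      omega

def DD (l i : ℕ) (y : SV) : ℤ := ∑ j ∈ Ico (i * l) ((i + 1) * l), ((ep i * y j : SignType) : ℤ)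

lemma zeros_block {N t l i : ℕ} (hi : (i + 1) * l ≤ N) {y : SV} (hy : Hi N t y) :
    ∑ j ∈ Ico (i * l) ((i + 1) * l), (if y j = 0 then 1 else 0 : ℤ) ≤ t := by
  have h1 := zeros_le y N 1 (by decide)
  have h2 := zeros_le y N (-1) (by decide)
  have h3 : ∑ j ∈ Ico (i * l) ((i + 1) * l), (if y j = 0 then 1 else 0 : ℕ) ≤
      ∑ j ∈ range N, (if y j = 0 then 1 else 0 : ℕ) := by
    apply sum_le_sum_of_subset
    intro j hj
    rw [mem_Ico] at hj
    rw [mem_range]; omega
  have h4 : ∑ j ∈ Ico (i * l) ((i + 1) * l), (if y j = 0 then 1 else 0 : ℕ) ≤ t := by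
    simp only [Hi] at hy; omega
  exact_mod_cast h4

theorem exists_template (t K : ℕ) (ht : 1 ≤ t) :
    ∃ (V : Type) (_ : Finite V) (H : V → V → Prop) (D : Fin (t + 1) → V → ℤ),
      (∀ u v, H u v → H v u) ∧ (∀ u, ¬ H u u) ∧
      (∀ c : V → Fin t, ∃ u v, H u v ∧ c u = c v) ∧
      (∀ i u v, H u v → |D i u + D i v| ≤ 2 * t) ∧ ∀ u, ∃ i, (K : ℤ) ≤ D i u := by
  have hN : t ≤ (t + 1) * (K + t) := by nlinarith
  refine ⟨VV ((t + 1) * (K + t)) t, inferInstance, HH _ _, fun i y => DD (K + t) i y.1,
    ?_, ?_, not_colourable _ _ ht hN, ?_, ?_⟩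
  · intro u v h j hj
    rw [hj]; exact h j hj.symm
  · intro u h
    exact u.2.1.1 (funext fun j => h j rfl)
  · intro i u v h
    have hi : ((i : ℕ) + 1) * (K + t) ≤ (t + 1) * (K + t) :=
      Nat.mul_le_mul_right _ (by have := i.2; omega)
    have h1 := zeros_block hi u.2.2
    have h2 := zeros_block hi v.2.2
    simp only [DD]
    rw [← sum_add_distrib]
    refine (abs_sum_le_sum_abs _ _).trans ?_
    have h3 : ∑ j ∈ Ico ((i : ℕ) * (K + t)) ((i + 1) * (K + t)),
        |((ep i * u.1 j : SignType) : ℤ) + ((ep i * v.1 j : SignType) : ℤ)| ≤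
        ∑ j ∈ Ico ((i : ℕ) * (K + t)) ((i + 1) * (K + t)),
          ((if u.1 j = 0 then 1 else 0 : ℤ) + (if v.1 j = 0 then 1 else 0 : ℤ)) := by
      apply sum_le_sum
      intro j _
      have := h j
      revert this
      generalize u.1 j = a
      generalize v.1 j = b
      generalize ep i = e
      revert a b e
      decide
    rw [sum_add_distrib] at h3
    omega
  · intro u
    by_contra hcon
    push Not at hcon
    have hb : ∀ i' < t + 1, ∃ j ∈ Ico (i' * (K + t)) ((i' + 1) * (K + t)), u.1 j = - ep i' := by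
      intro i hi
      by_contra h0
      push Not at h0
      have hi' : (i + 1) * (K + t) ≤ (t + 1) * (K + t) := Nat.mul_le_mul_right _ (by omega)
      have h1 := zeros_block hi' u.2.2
      have h2 := hcon ⟨i, hi⟩
      simp only [DD] at h2
      have h3 : ∑ j ∈ Ico (i * (K + t)) ((i + 1) * (K + t)), (1 : ℤ) ≤
          ∑ j ∈ Ico (i * (K + t)) ((i + 1) * (K + t)),
            (((ep i * u.1 j : SignType) : ℤ) + (if u.1 j = 0 then 1 else 0 : ℤ)) := by
        apply sum_le_sum
        intro j hj
        have := h0 j hj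
        have he := ep_ne i
        revert this he
        generalize u.1 j = a
        generalize ep i = e
        revert a e
        decide
      rw [sum_add_distrib] at h3
      simp only [sum_const, Nat.card_Ico, nsmul_eq_mul, mul_one] at h3
      have h4 : (i + 1) * (K + t) - i * (K + t) = K + t := by
        rw [add_mul, one_mul]; omega
      rw [h4, Nat.cast_add] at h3
      omega
    have h1 := sc_blocks u.1 (K + t) (t + 1) hb
    have h2 := sc_le_succ u.1 ((t + 1) * (K + t)) (- ep (t + 1)) (by simpa using ep_ne _)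
    have h3 := u.2.2
    have h4 := ep_ne (t + 1)
    simp only [Hi, neg_neg] at h2 h3
    have h5 : ep (t + 1) = 1 ∨ ep (t + 1) = -1 := by
      revert h4; generalize ep (t + 1) = e; revert e; decide
    rcases h5 with h5 | h5
    · rw [h5] at h1 h2; omega
    · rw [h5] at h1 h2; simp only [neg_neg] at h1 h2; omega

end Pool.Agent.P.MP_fd346d_co
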